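import Mathlib
import Pool.Agent.Y389.RT.K3d

set_option autoImplicit false

namespace Pool.Agent.Results.MP_fed786_co.ExactK3

/-- The case `k = 3` of the problem for all `l ≥ 225`: every edge colouring (any number of
colours) of a tournament on at least `l² + 1` vertices has a monochromatic directed path with `l`
arcs or a rainbow directed path with `3` arcs. -/
theorem result :
    ∀ l n : ℕ, 225 ≤ l → l ^ (3 - 1) + 1 ≤ n →
      ∀ adj : Fin n → Fin n → Prop,
        (∀ u, ¬ adj u u) →
        (∀ u v, u ≠ v → (adj u v ↔ ¬ adj v u)) →
        ∀ c : Fin n → Fin n → ℕ,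
          (∃ p : Fin (l + 1) → Fin n,
              Function.Injective p ∧
              (∀ i : Fin l, adj (p i.castSucc) (p i.succ)) ∧
              (∀ i j : Fin l, c (p i.castSucc) (p i.succ) = c (p j.castSucc) (p j.succ))) ∨
          (∃ p : Fin (3 + 1) → Fin n,
              Function.Injective p ∧
              (∀ i : Fin 3, adj (p i.castSucc) (p i.succ)) ∧
              Function.Injective (fun i : Fin 3 => c (p i.castSucc) (p i.succ))) := by
  intro l n hl hn adj hirr hT c
  exact Pool.Agent.Y389.RT.k3_exact' hl (Nat.lt_of_succ_le hn) adj hirr hT c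

end Pool.Agent.Results.MP_fed786_co.ExactK3
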