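import Mathlib

/-!
# Monochromatic or rainbow directed paths in tournaments: the right order of magnitude

Every tournament with more than `(4 l ^ 2 + 3 l) * ∏_{3 ≤ j < k} (j ^ 2 l + 1)` vertices has, for
every colouring of its arcs, a monochromatic directed path with `l` arcs or a rainbow directed path
with `k ≥ 3` arcs: `4 l ^ 2 + 3 l` for `k = 3`, `(4 l ^ 2 + 3 l) (9 l + 1)` for `k = 4`.

Proof.  Assume there is no monochromatic path with `l` arcs and let `F` be a bound for the
tournaments without rainbow path with `k` arcs.  Let `U` have no rainbow path with `k + 1` arcs.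

* A colour `a` touches at most `l F` vertices: the theorem of Gallai and Roy (maximal acyclic set
  of arcs of colour `a`, longest paths in it) splits these vertices into `l` sets without arcs of
  colour `a`, such that every rainbow path with `k` arcs inside one of them is extended by an arc of
  colour `a` at its start or at its end.
* Remove rainbow paths `P₁, P₂, ...` with `k` arcs one after the other, together with all vertices
  touched by one of their colours.  The start `s` of `Pᵢ` sends arcs to all remaining vertices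
  (otherwise `Pᵢ` is extended at its start), and the arc from the start of `Pᵢ` to the start of
  `Pᵢ₊₁` has a colour of `Pᵢ₊₁` (otherwise `Pᵢ₊₁` is extended).  So the starts form a rainbow
  path.  When `k` paths have been removed, the last start `q` can only be continued by arcs `w → w'`
  with the colour of `q → w`; so in the rest the colour of an arc depends only on its tail, and the
  rest has at most `(k + 1) l` vertices.
-/

set_option autoImplicit false

namespace Pool.Agent.Results.MP_fed786_co.OrderOfMagnitude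

open Relation

section GallaiRoy

variable {V : Type*}

/-- a cycle through a new arc -/
theorem trans_insert (R : V → V → Prop) (u v x y : V)
    (h : TransGen (fun a b => R a b ∨ (a = u ∧ b = v)) x y) :
    TransGen R x y ∨ (ReflTransGen R x u ∧ ReflTransGen R v y) := by
  induction h with
  | single h =>
    rcases h with h | ⟨rfl, rfl⟩
    · exact Or.inl (TransGen.single h)
    · exact Or.inr ⟨ReflTransGen.refl, ReflTransGen.refl⟩
  | tail _ h ih =>
    rcases h with h | ⟨rfl, rfl⟩
    · rcases ih with ih | ⟨i1, i2⟩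
      · exact Or.inl (ih.tail h)
      · exact Or.inr ⟨i1, i2.tail h⟩
    · rcases ih with ih | ⟨i1, i2⟩
      · exact Or.inr ⟨ih.to_reflTransGen, ReflTransGen.refl⟩
      · exact Or.inr ⟨i1, ReflTransGen.refl⟩

/-- Gallai-Roy, with the extra information about the lowest class -/
theorem gallai_roy [Finite V] (D : V → V → Prop) (hirr : ∀ v, ¬ D v v) (l : ℕ)
    (hD : ¬ ∃ p : ℕ → V, (∀ i < l, D (p i) (p (i + 1))) ∧
      (∀ i ≤ l, ∀ j ≤ l, p i = p j → i = j)) :
    ∃ f : V → ℕ, (∀ v, f v < l) ∧ (∀ u v, D u v → f u ≠ f v) ∧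
      (∀ v, 0 < f v → ∃ u, D u v) ∧ (∀ v, f v = 0 → (∃ u, D u v) → ∃ w, D v w) := by
  classical
  let S : Set (Set (V × V)) :=
    {r | (∀ x ∈ r, D x.1 x.2) ∧ ∀ v, ¬ TransGen (fun a b => (a, b) ∈ r) v v}
  have hS0 : (∅ : Set (V × V)) ∈ S := by
    refine ⟨fun x hx => absurd hx (Set.notMem_empty x), ?_⟩
    intro v hv
    obtain ⟨w, hw, -⟩ := TransGen.head'_iff.1 hv
    exact absurd hw (Set.notMem_empty _)
  obtain ⟨r, hr⟩ := (Set.toFinite S).exists_maximal ⟨∅, hS0⟩
  have hrD := hr.prop.1
  have hrA := hr.prop.2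
  let R : V → V → Prop := fun a b => (a, b) ∈ r
  have hRD : ∀ a b, R a b → D a b := fun a b h => hrD (a, b) h
  have hback : ∀ u v, D u v → ¬ R u v → TransGen R v u := by
    intro u v huv hn
    by_contra hcon
    have hmem : insert (u, v) r ∈ S := by
      refine ⟨?_, ?_⟩
      · intro x hx
        rcases hx with rfl | hx
        · exact huv
        · exact hrD x hx
      · intro x hx
        have hx' : TransGen (fun a b => R a b ∨ (a = u ∧ b = v)) x x := by
          refine TransGen.mono ?_ _ _ hx
          intro a b hab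
          rcases hab with hab | hab
          · right
            exact ⟨(Prod.mk.inj hab).1, (Prod.mk.inj hab).2⟩
          · exact Or.inl hab
        rcases trans_insert R u v x x hx' with h | ⟨h1, h2⟩
        · exact hrA x h
        · have h3 : ReflTransGen R v u := h2.trans h1
          rcases reflTransGen_iff_eq_or_transGen.1 h3 with h4 | h4
          · rw [h4] at huv
            exact hirr v huv
          · exact hcon h4
    have := hr.le_of_ge hmem (Set.subset_insert _ _)
    exact hn (this (Set.mem_insert _ _))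
  let Ch : ℕ → V → Prop := fun n v => ∃ p : ℕ → V, p n = v ∧ ∀ i < n, R (p i) (p (i + 1))
  have hCh0 : ∀ v, Ch 0 v := fun v => ⟨fun _ => v, rfl, fun i hi => absurd hi (Nat.not_lt_zero i)⟩
  have hChl : ∀ v, ¬ Ch l v := by
    rintro v ⟨p, -, hp⟩
    apply hD
    refine ⟨p, fun i hi => hRD _ _ (hp i hi), ?_⟩
    have key : ∀ d i, i + (d + 1) ≤ l → TransGen R (p i) (p (i + (d + 1))) := by
      intro d
      induction d with
      | zero => intro i hi; exact TransGen.single (hp i (by omega))
      | succ d ih =>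
        intro i hi
        exact (ih i (by omega)).tail (by
          have := hp (i + (d + 1)) (by omega)
          simpa [Nat.add_assoc] using this)
    intro i hi j hj hij
    by_contra hne
    rcases Nat.lt_or_gt_of_ne hne with h | h
    · obtain ⟨d, rfl⟩ : ∃ d, j = i + (d + 1) := ⟨j - i - 1, by omega⟩
      have := key d i hj
      rw [← hij] at this
      exact hrA _ this
    · obtain ⟨d, rfl⟩ : ∃ d, i = j + (d + 1) := ⟨i - j - 1, by omega⟩
      have := key d j hi
      rw [hij] at this
      exact hrA _ this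
  let f : V → ℕ := fun v => Nat.findGreatest (fun n => Ch n v) l
  have hfC : ∀ v, Ch (f v) v := fun v =>
    Nat.findGreatest_spec (P := fun n => Ch n v) (Nat.zero_le l) (hCh0 v)
  have hfl : ∀ v, f v < l := by
    intro v
    refine lt_of_le_of_ne (Nat.findGreatest_le l) ?_
    intro h
    have h2 := hfC v
    rw [h] at h2
    exact hChl v h2
  have hRlt : ∀ u v, R u v → f u < f v := by
    intro u v huv
    obtain ⟨p, hp0, hp⟩ := hfC u
    have : Ch (f u + 1) v := by
      refine ⟨fun i => if i ≤ f u then p i else v, by simp, ?_⟩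
      intro i hi
      rcases Nat.lt_or_ge i (f u) with h | h
      · simp only [show i ≤ f u by omega, show i + 1 ≤ f u by omega, if_true]
        exact hp i h
      · have h2 : i = f u := by omega
        simp only [h2, le_refl, if_true, show ¬ (f u + 1 ≤ f u) by omega, if_false]
        rw [hp0]
        exact huv
    exact Nat.lt_of_succ_le (Nat.le_findGreatest (hfl u) this)
  have hTlt : ∀ u v, TransGen R u v → f u < f v := by
    intro u v h
    induction h with
    | single h => exact hRlt _ _ h
    | tail _ h ih => exact ih.trans (hRlt _ _ h)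
  refine ⟨f, hfl, ?_, ?_, ?_⟩
  · intro u v huv
    by_cases h : R u v
    · exact (hRlt u v h).ne
    · exact (hTlt v u (hback u v huv h)).ne'
  · intro v hv
    obtain ⟨p, hp0, hp⟩ := hfC v
    obtain ⟨n, hn⟩ : ∃ n, f v = n + 1 := ⟨f v - 1, by omega⟩
    refine ⟨p n, ?_⟩
    have := hp n (by omega)
    rw [← hn, hp0] at this
    exact hRD _ _ this
  · rintro v hv ⟨u, hu⟩
    by_cases h : R u v
    · have := hRlt u v h
      omega
    · obtain ⟨w, hw, -⟩ := TransGen.head'_iff.1 (hback u v hu h)
      exact ⟨w, hRD _ _ hw⟩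

end GallaiRoy

section Main

variable {V K : Type*}

/-- `p 0, ..., p k` is a rainbow directed path inside `U` -/
structure Rb (adj : V → V → Prop) (c : V → V → K) (U : Finset V) (k : ℕ) (p : ℕ → V) :
    Prop where
  mem : ∀ i ≤ k, p i ∈ U
  inj : ∀ i ≤ k, ∀ j ≤ k, p i = p j → i = j
  arc : ∀ i < k, adj (p i) (p (i + 1))
  col : ∀ i < k, ∀ j < k, c (p i) (p (i + 1)) = c (p j) (p (j + 1)) → i = j

variable {adj : V → V → Prop} {c : V → V → K}

theorem Rb.mono {U W : Finset V} {k : ℕ} {p : ℕ → V} (h : Rb adj c W k p) (hW : W ⊆ U) :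
    Rb adj c U k p := ⟨fun i hi => hW (h.mem i hi), h.inj, h.arc, h.col⟩

theorem Rb.cons {U : Finset V} {k : ℕ} {p : ℕ → V} (h : Rb adj c U k p) {x : V} (hx : x ∈ U)
    (hne : ∀ i ≤ k, x ≠ p i) (ha : adj x (p 0))
    (hc : ∀ i < k, c x (p 0) ≠ c (p i) (p (i + 1))) :
    Rb adj c U (k + 1) (fun i => Nat.casesOn i x p) := by
  refine ⟨?_, ?_, ?_, ?_⟩
  · intro i hi
    cases i with
    | zero => exact hx
    | succ i => exact h.mem i (by omega)
  · intro i hi j hj hij
    cases i with
    | zero =>
      cases j with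
      | zero => rfl
      | succ j => exact absurd hij (hne j (by omega))
    | succ i =>
      cases j with
      | zero => exact absurd hij.symm (hne i (by omega))
      | succ j => exact congrArg (· + 1) (h.inj i (by omega) j (by omega) hij)
  · intro i hi
    cases i with
    | zero => exact ha
    | succ i => exact h.arc i (by omega)
  · intro i hi j hj hij
    cases i with
    | zero =>
      cases j with
      | zero => rfl
      | succ j => exact absurd hij (hc j (by omega))
    | succ i =>
      cases j with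
      | zero => exact absurd hij.symm (hc i (by omega))
      | succ j => exact congrArg (· + 1) (h.col i (by omega) j (by omega) hij)

theorem Rb.snoc {U : Finset V} {k : ℕ} {p : ℕ → V} (h : Rb adj c U k p) {x : V} (hx : x ∈ U)
    (hne : ∀ i ≤ k, p i ≠ x) (ha : adj (p k) x)
    (hc : ∀ i < k, c (p i) (p (i + 1)) ≠ c (p k) x) :
    Rb adj c U (k + 1) (fun i => if i ≤ k then p i else x) := by
  have e1 : ∀ i, i ≤ k → (if i ≤ k then p i else x) = p i := fun i hi => if_pos hi
  have e2 : (if k + 1 ≤ k then p (k + 1) else x) = x := if_neg (by omega)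
  refine ⟨?_, ?_, ?_, ?_⟩
  · intro i hi
    rcases Nat.lt_or_ge k i with h1 | h1
    · obtain rfl : i = k + 1 := by omega
      rw [e2]; exact hx
    · rw [e1 i h1]; exact h.mem i h1
  · intro i hi j hj hij
    rcases Nat.lt_or_ge k i with h1 | h1
    · obtain rfl : i = k + 1 := by omega
      rcases Nat.lt_or_ge k j with h2 | h2
      · omega
      · rw [e2, e1 j h2] at hij
        exact absurd hij.symm (hne j h2)
    · rcases Nat.lt_or_ge k j with h2 | h2
      · obtain rfl : j = k + 1 := by omega
        rw [e2, e1 i h1] at hij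
        exact absurd hij (hne i h1)
      · rw [e1 i h1, e1 j h2] at hij
        exact h.inj i h1 j h2 hij
  · intro i hi
    rcases Nat.lt_or_ge i k with h1 | h1
    · rw [e1 i (by omega), e1 (i + 1) (by omega)]
      exact h.arc i h1
    · obtain rfl : i = k := by omega
      rw [e1 i (le_refl i), e2]
      exact ha
  · intro i hi j hj hij
    rcases Nat.lt_or_ge i k with h1 | h1
    · rcases Nat.lt_or_ge j k with h2 | h2
      · rw [e1 i (by omega), e1 (i + 1) (by omega), e1 j (by omega), e1 (j + 1) (by omega)] at hij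
        exact h.col i h1 j h2 hij
      · obtain rfl : j = k := by omega
        rw [e1 i (by omega), e1 (i + 1) (by omega), e1 j (le_refl j), e2] at hij
        exact absurd hij (hc i h1)
    · obtain rfl : i = k := by omega
      rcases Nat.lt_or_ge j i with h2 | h2
      · rw [e1 j (by omega), e1 (j + 1) (by omega), e1 i (le_refl i), e2] at hij
        exact absurd hij.symm (hc j h2)
      · omega

open Classical in
/-- the vertices of `U` touched (inside `U`) by the colour `a` -/
noncomputable def touch (adj : V → V → Prop) (c : V → V → K) (U : Finset V) (a : K) : Finset V :=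
  U.filter (fun v => ∃ u ∈ U, (adj u v ∧ c u v = a) ∨ (adj v u ∧ c v u = a))

theorem mem_touch {U : Finset V} {a : K} {v : V} :
    v ∈ touch adj c U a ↔ v ∈ U ∧ ∃ u ∈ U, (adj u v ∧ c u v = a) ∨ (adj v u ∧ c v u = a) := by
  classical
  simp [touch]

/-- no monochromatic directed path with `l` arcs -/
def NoMono (adj : V → V → Prop) (c : V → V → K) (l : ℕ) : Prop :=
  ¬ ∃ (p : ℕ → V) (a : K), (∀ i < l, adj (p i) (p (i + 1)) ∧ c (p i) (p (i + 1)) = a) ∧
    (∀ i ≤ l, ∀ j ≤ l, p i = p j → i = j)

theorem touch_card [Finite V] (hirr : ∀ v, ¬ adj v v) {l k F : ℕ} (hno : NoMono adj c l)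
    (hF : ∀ W : Finset V, F < W.card → ∃ p, Rb adj c W k p) (U : Finset V)
    (hk : ¬ ∃ p, Rb adj c U (k + 1) p) (a : K) : (touch adj c U a).card ≤ l * F := by
  classical
  obtain ⟨f, hf1, hf2, hf3, hf4⟩ := gallai_roy
    (fun u v => u ∈ U ∧ v ∈ U ∧ adj u v ∧ c u v = a) (fun v h => hirr v h.2.2.1) l (by
      rintro ⟨p, hp1, hp2⟩
      exact hno ⟨p, a, fun i hi => (hp1 i hi).2.2, hp2⟩)
  have hpiece : ∀ i ∈ Finset.range l,
      ((touch adj c U a).filter (fun v => f v = i)).card ≤ F := by
    intro i _
    by_contra hcon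
    rw [not_le] at hcon
    obtain ⟨p, hp⟩ := hF _ hcon
    have hmem : ∀ j ≤ k, p j ∈ U ∧ f (p j) = i ∧ p j ∈ touch adj c U a := by
      intro j hj
      have h1 := Finset.mem_filter.1 (hp.mem j hj)
      exact ⟨(mem_touch.1 h1.1).1, h1.2, h1.1⟩
    have hpU : Rb adj c U k p := ⟨fun j hj => (hmem j hj).1, hp.inj, hp.arc, hp.col⟩
    have hna : ∀ j < k, c (p j) (p (j + 1)) ≠ a := by
      intro j hj h
      exact hf2 (p j) (p (j + 1)) ⟨(hmem j (by omega)).1, (hmem (j + 1) (by omega)).1,
        hp.arc j hj, h⟩ (by rw [(hmem j (by omega)).2.1, (hmem (j + 1) (by omega)).2.1])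
    rcases Nat.eq_zero_or_pos i with hi | hi
    · obtain ⟨-, u, hu, hor⟩ := mem_touch.1 (hmem k le_rfl).2.2
      have hw : ∃ w, p k ∈ U ∧ w ∈ U ∧ adj (p k) w ∧ c (p k) w = a := by
        rcases hor with h | h
        · exact hf4 (p k) (by rw [(hmem k le_rfl).2.1, hi]) ⟨u, hu, (hmem k le_rfl).1, h.1, h.2⟩
        · exact ⟨u, (hmem k le_rfl).1, hu, h.1, h.2⟩
      obtain ⟨w, hw1, hw2, hw3, hw4⟩ := hw
      refine hk ⟨_, hpU.snoc hw2 ?_ hw3 ?_⟩
      · intro j hj h
        have := hf2 (p k) w ⟨hw1, hw2, hw3, hw4⟩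
        rw [← h, (hmem k le_rfl).2.1, (hmem j hj).2.1] at this
        exact this rfl
      · intro j hj h
        exact hna j hj (h.trans hw4)
    · obtain ⟨u, hu1, hu2, hu3, hu4⟩ := hf3 (p 0) (by rw [(hmem 0 (Nat.zero_le k)).2.1]; exact hi)
      refine hk ⟨_, hpU.cons hu1 ?_ hu3 ?_⟩
      · intro j hj h
        have := hf2 u (p 0) ⟨hu1, hu2, hu3, hu4⟩
        rw [h, (hmem 0 (Nat.zero_le k)).2.1, (hmem j hj).2.1] at this
        exact this rfl
      · intro j hj h
        exact hna j hj (h.symm.trans hu4)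
  have hcard := Finset.card_eq_sum_card_fiberwise (s := touch adj c U a) (t := Finset.range l)
    (f := f) (fun v _ => by simpa using hf1 v)
  rw [hcard]
  have := Finset.sum_le_card_nsmul (Finset.range l) _ F hpiece
  simpa using this

theorem extract [Finite V] (hirr : ∀ v, ¬ adj v v)
    (htour : ∀ u v, u ≠ v → (adj u v ↔ ¬ adj v u)) {l k F : ℕ} (hk0 : 0 < k)
    (hno : NoMono adj c l)
    (hF : ∀ W : Finset V, F < W.card → ∃ p, Rb adj c W k p) (U : Finset V)
    (hk : ¬ ∃ p, Rb adj c U (k + 1) p) (W : Finset V) (hWU : W ⊆ U) (hW : F < W.card) :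
    ∃ (p : ℕ → V) (W' : Finset V), Rb adj c W k p ∧ W' ⊆ W ∧
      (∀ i < k, ∀ w ∈ W', w ∉ touch adj c U (c (p i) (p (i + 1)))) ∧
      (∀ w ∈ W', adj (p 0) w) ∧ W.card ≤ W'.card + k * (l * F) := by
  classical
  obtain ⟨p, hp⟩ := hF W hW
  have hpU : Rb adj c U k p := hp.mono hWU
  let T : Finset V := (Finset.range k).biUnion (fun i => touch adj c U (c (p i) (p (i + 1))))
  have hT : ∀ w, w ∉ T → ∀ i < k, w ∉ touch adj c U (c (p i) (p (i + 1))) := by
    intro w hw i hi h
    exact hw (Finset.mem_biUnion.2 ⟨i, Finset.mem_range.2 hi, h⟩)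
  have hpT : ∀ i ≤ k, p i ∈ T := by
    intro i hi
    rcases Nat.lt_or_ge i k with h | h
    · refine Finset.mem_biUnion.2 ⟨i, Finset.mem_range.2 h, mem_touch.2 ⟨hpU.mem i hi, p (i + 1),
        hpU.mem (i + 1) h, Or.inr ⟨hpU.arc i h, rfl⟩⟩⟩
    · obtain ⟨j, rfl⟩ : ∃ j, i = j + 1 := ⟨i - 1, by omega⟩
      refine Finset.mem_biUnion.2 ⟨j, Finset.mem_range.2 (by omega), mem_touch.2
        ⟨hpU.mem (j + 1) hi, p j, hpU.mem j (by omega), Or.inl ⟨hpU.arc j (by omega), rfl⟩⟩⟩
  refine ⟨p, W \ T, hp, Finset.sdiff_subset, ?_, ?_, ?_⟩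
  · intro i hi w hw
    exact hT w (Finset.mem_sdiff.1 hw).2 i hi
  · intro w hw
    obtain ⟨hwW, hwT⟩ := Finset.mem_sdiff.1 hw
    have hne : ∀ i ≤ k, w ≠ p i := fun i hi h => hwT (h ▸ hpT i hi)
    by_contra hcon
    have hadj : adj w (p 0) := (htour w (p 0) (hne 0 (Nat.zero_le k))).2 hcon
    refine hk ⟨_, hpU.cons (hWU hwW) hne hadj ?_⟩
    intro i hi h
    exact hT w hwT i hi (mem_touch.2 ⟨hWU hwW, p 0, hpU.mem 0 (Nat.zero_le k),
      Or.inr ⟨hadj, h⟩⟩)
  · have h1 : W.card ≤ (W \ T).card + T.card := by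
      calc W.card ≤ ((W \ T) ∪ T).card := Finset.card_le_card (by
            intro x hx
            by_cases h : x ∈ T
            · exact Finset.mem_union_right _ h
            · exact Finset.mem_union_left _ (Finset.mem_sdiff.2 ⟨hx, h⟩))
        _ ≤ _ := Finset.card_union_le _ _
    have h2 : T.card ≤ k * (l * F) := by
      refine (Finset.card_biUnion_le).trans ?_
      have := Finset.sum_le_card_nsmul (Finset.range k)
        (fun i => (touch adj c U (c (p i) (p (i + 1)))).card) (l * F)
        (fun i _ => touch_card hirr hno hF U hk _)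
      simpa using this
    omega

/-- more than `n` vertices of a tournament contain a directed path with `n` arcs -/
theorem ham [Finite V] (hirr : ∀ v, ¬ adj v v)
    (htour : ∀ u v, u ≠ v → (adj u v ↔ ¬ adj v u)) (U : Finset V) (n : ℕ) (hU : n < U.card) :
    ∃ p : ℕ → V, (∀ i < n, (p i ∈ U ∧ p (i + 1) ∈ U ∧ adj (p i) (p (i + 1)))) ∧
      (∀ i ≤ n, ∀ j ≤ n, p i = p j → i = j) := by
  classical
  by_contra hD
  obtain ⟨f, hf1, hf2, -, -⟩ := gallai_roy (fun u v => u ∈ U ∧ v ∈ U ∧ adj u v)
    (fun v h => hirr v h.2.2) n hD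
  have hinj : Set.InjOn f U := by
    intro u hu v hv huv
    by_contra hne
    by_cases h : adj u v
    · exact hf2 u v ⟨hu, hv, h⟩ huv
    · exact hf2 v u ⟨hv, hu, (htour v u (Ne.symm hne)).2 h⟩ huv.symm
  have h1 : U.card ≤ (Finset.range n).card :=
    Finset.card_le_card_of_injOn f (fun v _ => by simpa using hf1 v) hinj
  rw [Finset.card_range] at h1
  omega

/-- if the colour of an arc inside `W` only depends on its tail, then `W` is small -/
theorem tails [Finite V] (hirr : ∀ v, ¬ adj v v)
    (htour : ∀ u v, u ≠ v → (adj u v ↔ ¬ adj v u)) {l k : ℕ}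
    (hno : NoMono adj c l) (W : Finset V) (χ : V → K)
    (hχ : ∀ u ∈ W, ∀ v ∈ W, adj u v → c u v = χ u)
    (hk : ¬ ∃ p, Rb adj c W (k + 1) p) : W.card ≤ (k + 1) * l := by
  classical
  rcases W.eq_empty_or_nonempty with rfl | ⟨w0, hw0⟩
  · simp
  haveI : Nonempty V := ⟨w0⟩
  have h1 : ∀ a ∈ W.image χ, (W.filter (fun x => χ x = a)).card ≤ l := by
    intro a _
    by_contra hcon
    rw [not_le] at hcon
    obtain ⟨p, hp1, hp2⟩ := ham hirr htour _ l hcon
    refine hno ⟨p, a, fun i hi => ?_, hp2⟩
    obtain ⟨ha, hb, hab⟩ := hp1 i hi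
    have ha' := Finset.mem_filter.1 ha
    have hb' := Finset.mem_filter.1 hb
    exact ⟨hab, (hχ _ ha'.1 _ hb'.1 hab).trans ha'.2⟩
  have h2 : (W.image χ).card ≤ k + 1 := by
    by_contra hcon
    rw [not_le] at hcon
    let g : K → V := Function.invFunOn χ (W : Set V)
    have hg : ∀ a ∈ W.image χ, g a ∈ W ∧ χ (g a) = a := by
      intro a ha
      obtain ⟨w, hw, hwa⟩ := Finset.mem_image.1 ha
      have hex : ∃ x ∈ (W : Set V), χ x = a := ⟨w, hw, hwa⟩
      exact ⟨Finset.mem_coe.1 (Function.invFunOn_mem hex), Function.invFunOn_eq hex⟩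
    have hcard : ((W.image χ).image g).card = (W.image χ).card := by
      apply Finset.card_image_of_injOn
      intro a ha b hb hab
      rw [← (hg a ha).2, ← (hg b hb).2, hab]
    obtain ⟨p, hp1, hp2⟩ := ham hirr htour ((W.image χ).image g) (k + 1) (by omega)
    have hT : ∀ x ∈ (W.image χ).image g, x ∈ W ∧ g (χ x) = x := by
      intro x hx
      obtain ⟨a, ha, rfl⟩ := Finset.mem_image.1 hx
      exact ⟨(hg a ha).1, by rw [(hg a ha).2]⟩
    have hmem : ∀ i ≤ k + 1, p i ∈ (W.image χ).image g := by
      intro i hi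
      rcases Nat.lt_or_ge i (k + 1) with h | h
      · exact (hp1 i h).1
      · obtain rfl : i = k + 1 := by omega
        exact (hp1 k (by omega)).2.1
    refine hk ⟨p, fun i hi => (hT _ (hmem i hi)).1, hp2, fun i hi => (hp1 i hi).2.2, ?_⟩
    intro i hi j hj hij
    rw [hχ _ (hT _ (hmem i (by omega))).1 _ (hT _ (hmem (i + 1) (by omega))).1 (hp1 i hi).2.2,
      hχ _ (hT _ (hmem j (by omega))).1 _ (hT _ (hmem (j + 1) (by omega))).1 (hp1 j hj).2.2] at hij
    refine hp2 i (by omega) j (by omega) ?_
    rw [← (hT _ (hmem i (by omega))).2, ← (hT _ (hmem j (by omega))).2, hij]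
  calc W.card ≤ l * (W.image χ).card := Finset.card_le_mul_card_image W l h1
    _ ≤ l * (k + 1) := Nat.mul_le_mul_left _ h2
    _ = (k + 1) * l := Nat.mul_comm _ _

theorem step [Finite V] (hirr : ∀ v, ¬ adj v v)
    (htour : ∀ u v, u ≠ v → (adj u v ↔ ¬ adj v u)) {l k F : ℕ} (hk0 : 0 < k)
    (hno : NoMono adj c l)
    (hF : ∀ W : Finset V, F < W.card → ∃ p, Rb adj c W k p) (U : Finset V)
    (hU : max F ((k + 1) * l) + k * (k * (l * F)) < U.card) : ∃ p, Rb adj c U (k + 1) p := by
  classical
  by_contra hk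
  have hmax1 : F ≤ max F ((k + 1) * l) := le_max_left _ _
  have hmax2 : (k + 1) * l ≤ max F ((k + 1) * l) := le_max_right _ _
  have claim : ∀ m, m + 1 ≤ k → ∃ (q : ℕ → V) (W : Finset V), W ⊆ U ∧ Rb adj c U m q ∧
      (∀ i ≤ m, ∀ w ∈ W, adj (q i) w) ∧
      (∀ i < m, ∀ w ∈ W, w ∉ touch adj c U (c (q i) (q (i + 1)))) ∧
      U.card ≤ W.card + (m + 1) * (k * (l * F)) := by
    intro m
    induction m with
    | zero =>
      intro _
      obtain ⟨p, W', h1, h2, h3, h4, h5⟩ := extract hirr htour hk0 hno hF U hk U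
        (Finset.Subset.refl U) (by omega)
      refine ⟨fun _ => p 0, W', h2, ⟨?_, ?_, ?_, ?_⟩, ?_, ?_, ?_⟩
      · intro i _; exact h1.mem 0 (Nat.zero_le k)
      · intro i hi j hj _; omega
      · intro i hi; omega
      · intro i hi; omega
      · intro i _ w hw; exact h4 w hw
      · intro i hi; omega
      · simpa using h5
    | succ m ih =>
      intro hm
      obtain ⟨q, W, hWU, hq, hadj, htou, hcard⟩ := ih (by omega)
      have hWF : F < W.card := by
        have : (m + 1) * (k * (l * F)) ≤ k * (k * (l * F)) :=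
          Nat.mul_le_mul_right _ (by omega)
        omega
      obtain ⟨p, W', h1, h2, h3, h4, h5⟩ := extract hirr htour hk0 hno hF U hk W hWU hWF
      have hp0 : p 0 ∈ W := h1.mem 0 (Nat.zero_le k)
      have hqp : ∀ i ≤ m, ∀ w ∈ W, q i ≠ w := by
        intro i hi w hw h
        have := hadj i hi w hw
        rw [h] at this
        exact hirr w this
      have hcol : ∃ j < k, c (q m) (p 0) = c (p j) (p (j + 1)) := by
        by_contra hcon
        push Not at hcon
        exact hk ⟨_, (h1.mono hWU).cons (hq.mem m le_rfl)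
          (fun i hi => hqp m le_rfl (p i) (h1.mem i hi)) (hadj m le_rfl (p 0) hp0) hcon⟩
      have e1 : ∀ i, i ≤ m → (if i ≤ m then q i else p 0) = q i := fun i hi => if_pos hi
      have e2 : (if m + 1 ≤ m then q (m + 1) else p 0) = p 0 := if_neg (by omega)
      refine ⟨fun i => if i ≤ m then q i else p 0, W', h2.trans hWU,
        hq.snoc (hWU hp0) (fun i hi => hqp i hi (p 0) hp0) (hadj m le_rfl (p 0) hp0) ?_,
        ?_, ?_, ?_⟩
      · intro i hi h
        refine htou i hi (p 0) hp0 (mem_touch.2 ⟨hWU hp0, q m, hq.mem m le_rfl, Or.inl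
          ⟨hadj m le_rfl (p 0) hp0, h.symm⟩⟩)
      · intro i hi w hw
        beta_reduce
        rcases Nat.lt_or_ge m i with h | h
        · obtain rfl : i = m + 1 := by omega
          rw [e2]; exact h4 w hw
        · rw [e1 i h]; exact hadj i h w (h2 hw)
      · intro i hi w hw
        beta_reduce
        rcases Nat.lt_or_ge i m with h | h
        · rw [e1 i (by omega), e1 (i + 1) (by omega)]
          exact htou i h w (h2 hw)
        · obtain rfl : i = m := by omega
          rw [e1 i le_rfl, e2]
          obtain ⟨j, hj, hj2⟩ := hcol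
          rw [hj2]
          exact h3 j hj w hw
      · have : (m + 1 + 1) * (k * (l * F)) = (m + 1) * (k * (l * F)) + k * (l * F) := by ring
        omega
  obtain ⟨m, rfl⟩ : ∃ m, k = m + 1 := ⟨k - 1, by omega⟩
  obtain ⟨q, W, hWU, hq, hadj, htou, hcard⟩ := claim m le_rfl
  have hqw : ∀ i ≤ m, ∀ w ∈ W, q i ≠ w := by
    intro i hi w hw h
    have := hadj i hi w hw
    rw [h] at this
    exact hirr w this
  have hsmall : W.card ≤ (m + 1 + 1) * l := by
    refine tails hirr htour hno W (fun w => c (q m) w) ?_ ?_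
    · intro u hu v hv huv
      by_contra hne
      have e1 : ∀ i, i ≤ m → (if i ≤ m then q i else u) = q i := fun i hi => if_pos hi
      have e2 : (if m + 1 ≤ m then q (m + 1) else u) = u := if_neg (by omega)
      have s1 : Rb adj c U (m + 1) (fun i => if i ≤ m then q i else u) := by
        refine hq.snoc (hWU hu) (fun i hi => hqw i hi u hu) (hadj m le_rfl u hu) ?_
        intro i hi h
        exact htou i hi u hu (mem_touch.2 ⟨hWU hu, q m, hq.mem m le_rfl, Or.inl
          ⟨hadj m le_rfl u hu, h.symm⟩⟩)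
      refine hk ⟨_, s1.snoc (hWU hv) ?_ ?_ ?_⟩
      · intro i hi
        beta_reduce
        rcases Nat.lt_or_ge m i with h | h
        · obtain rfl : i = m + 1 := by omega
          rw [e2]
          intro h2
          rw [h2] at huv
          exact hirr v huv
        · rw [e1 i h]
          exact hqw i h v hv
      · beta_reduce
        rw [e2]
        exact huv
      · intro i hi
        beta_reduce
        rw [e2]
        rcases Nat.lt_or_ge i m with h | h
        · rw [e1 i (by omega), e1 (i + 1) (by omega)]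
          intro h2
          exact htou i h u hu (mem_touch.2 ⟨hWU hu, v, hWU hv, Or.inr ⟨huv, h2.symm⟩⟩)
        · obtain rfl : i = m := by omega
          rw [e1 i le_rfl, e2]
          intro h2
          exact hne h2.symm
    · rintro ⟨p, hp⟩
      exact hk ⟨p, hp.mono hWU⟩
  have : (m + 1) * ((m + 1) * (l * F)) = (m + 1) * ((m + 1) * (l * F)) := rfl
  omega

/-- more than `l` vertices force a rainbow path with two arcs -/
theorem two [Finite V] (hirr : ∀ v, ¬ adj v v)
    (htour : ∀ u v, u ≠ v → (adj u v ↔ ¬ adj v u)) {l : ℕ}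
    (hno : NoMono adj c l) (U : Finset V) (hU : l < U.card) : ∃ p, Rb adj c U 2 p := by
  classical
  by_contra hk
  have hpath := ham hirr htour U l hU
  obtain ⟨p, hp1, hp2⟩ := hpath
  have hcol : ∀ i, i < l → c (p i) (p (i + 1)) = c (p 0) (p 1) := by
    intro i
    induction i with
    | zero => intro _; rfl
    | succ i ih =>
      intro hi
      rw [← ih (by omega)]
      by_contra hne
      refine hk ⟨fun j => p (i + j), ⟨?_, ?_, ?_, ?_⟩⟩
      · intro j hj
        rcases Nat.lt_or_ge j 2 with h | h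
        · exact (hp1 (i + j) (by omega)).1
        · obtain rfl : j = 2 := by omega
          exact (hp1 (i + 1) hi).2.1
      · intro j hj j' hj' h
        have := hp2 (i + j) (by omega) (i + j') (by omega) h
        omega
      · intro j hj
        exact (hp1 (i + j) (by omega)).2.2
      · intro j hj j' hj' h
        have hj0 : j = 0 ∨ j = 1 := by omega
        have hj0' : j' = 0 ∨ j' = 1 := by omega
        rcases hj0 with rfl | rfl <;> rcases hj0' with rfl | rfl
        · rfl
        · exact absurd h.symm hne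
        · exact absurd h hne
        · rfl
  exact hno ⟨p, c (p 0) (p 1), fun i hi => ⟨(hp1 i hi).2.2, hcol i hi⟩, hp2⟩

theorem three [Finite V] (hirr : ∀ v, ¬ adj v v)
    (htour : ∀ u v, u ≠ v → (adj u v ↔ ¬ adj v u)) {l : ℕ}
    (hno : NoMono adj c l) (U : Finset V) (hU : 4 * l ^ 2 + 3 * l < U.card) :
    ∃ p, Rb adj c U 3 p := by
  refine step hirr htour (k := 2) (F := l) (by omega) hno
    (fun W hW => two hirr htour hno W hW) U (lt_of_le_of_lt ?_ hU)
  have : max l ((2 + 1) * l) = 3 * l := by
    apply max_eq_right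
    omega
  rw [this]
  apply le_of_eq
  ring

theorem main [Finite V] (hirr : ∀ v, ¬ adj v v)
    (htour : ∀ u v, u ≠ v → (adj u v ↔ ¬ adj v u)) {l : ℕ} (hl : 0 < l)
    (hno : NoMono adj c l) :
    ∀ k : ℕ, 3 ≤ k → ∀ U : Finset V,
      (4 * l ^ 2 + 3 * l) * ∏ j ∈ Finset.Ico 3 k, (j ^ 2 * l + 1) < U.card →
      ∃ p, Rb adj c U k p := by
  classical
  have hbig : ∀ k : ℕ, 3 ≤ k →
      (k + 1) * l ≤ (4 * l ^ 2 + 3 * l) * ∏ j ∈ Finset.Ico 3 k, (j ^ 2 * l + 1) := by
    intro k hk
    induction k, hk using Nat.le_induction with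
    | base => simp; nlinarith
    | succ k hk ih =>
      rw [Finset.prod_Ico_succ_top hk, ← Nat.mul_assoc]
      have h1 : 2 ≤ k ^ 2 * l + 1 := by
        have : 1 ≤ k ^ 2 * l := Nat.mul_pos (by positivity) hl
        omega
      calc (k + 1 + 1) * l ≤ (k + 1) * l * 2 := by nlinarith
        _ ≤ _ := Nat.mul_le_mul ih h1
  intro k hk
  induction k, hk using Nat.le_induction with
  | base =>
    intro U hU
    exact three hirr htour hno U (by simpa using hU)
  | succ k hk ih =>
    intro U hU
    refine step hirr htour (by omega) hno ih U (lt_of_le_of_lt (le_of_eq ?_) hU)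
    rw [max_eq_left (hbig k hk), Finset.prod_Ico_succ_top hk]
    ring

end Main

/-- For `l ≥ 1`, `k ≥ 3` every tournament with more than
`(4 l ^ 2 + 3 l) * ∏_{3 ≤ j < k} (j ^ 2 l + 1)` vertices and every colouring of its arcs: there is a monochromatic directed path with `l` arcs or a
rainbow directed path with `k` arcs. -/
theorem result : ∀ (V K : Type*) [Fintype V] (l k : ℕ), 0 < l → 3 ≤ k →
    (4 * l ^ 2 + 3 * l) * ∏ j ∈ Finset.Ico 3 k, (j ^ 2 * l + 1) < Fintype.card V →
    ∀ adj : V → V → Prop, (∀ u, ¬ adj u u) → (∀ u v, u ≠ v → (adj u v ↔ ¬ adj v u)) →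
    ∀ c : V → V → K,
      (∃ p : Fin (l + 1) → V, Function.Injective p ∧
        (∀ i : Fin l, adj (p i.castSucc) (p i.succ)) ∧
        (∀ i j : Fin l, c (p i.castSucc) (p i.succ) = c (p j.castSucc) (p j.succ))) ∨
      (∃ p : Fin (k + 1) → V, Function.Injective p ∧
        (∀ i : Fin k, adj (p i.castSucc) (p i.succ)) ∧
        Function.Injective (fun i : Fin k => c (p i.castSucc) (p i.succ))) := by
  intro V K _ l k hl hk hV adj hirr htour c
  classical
  by_cases hno : NoMono adj c l
  · right
    obtain ⟨p, hp⟩ := main (adj := adj) (c := c) hirr htour hl hno k hk Finset.univ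
      (by simpa [Finset.card_univ] using hV)
    refine ⟨fun i => p i, ?_, ?_, ?_⟩
    · intro i j hij
      exact Fin.ext (hp.inj i (by omega) j (by omega) hij)
    · intro i
      exact hp.arc i i.2
    · intro i j hij
      exact Fin.ext (hp.col i i.2 j j.2 hij)
  · left
    unfold NoMono at hno
    rw [not_not] at hno
    obtain ⟨p, a, hp1, hp2⟩ := hno
    refine ⟨fun i => p i, ?_, ?_, ?_⟩
    · intro i j hij
      exact Fin.ext (hp2 i (by omega) j (by omega) hij)
    · intro i
      exact (hp1 i i.2).1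
    · intro i j
      have h1 := (hp1 i i.2).2
      have h2 := (hp1 j j.2).2
      exact h1.trans h2.symm

end Pool.Agent.Results.MP_fed786_co.OrderOfMagnitude
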