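import Mathlib
import Pool.Agent.Y389.RT.Sharp2

set_option autoImplicit false

namespace Pool.Agent.Results.MP_fed786_co.SharpThreshold

/-- Let `C = C_k = (4k-3) (57 k² ⌈log₂ k⌉)^(k-1)`.  Every edge colouring (any number of colours)
of a tournament on `n` vertices has a monochromatic directed path with `l` arcs or a rainbow
directed path with `k` arcs as soon as one of the following holds:
* `k ≥ 3`, `l ≥ C_k` and `n > l^(k-1) + 2 (k-3) C_k l^(k-3)` (so `n > l²` for `k = 3`);
* `n > l^(k-1) + C_k l^(k-2)`;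
* `n > (19 ⌈log₂ k⌉ l)^(k-1)`. -/
theorem result :
    ∀ l k n C : ℕ, 0 < l → 2 ≤ k →
      C = (4 * k - 3) * (57 * k ^ 2 * Nat.clog 2 k) ^ (k - 1) →
      ((3 ≤ k ∧ C ≤ l ∧ l ^ (k - 1) + 2 * (k - 3) * C * l ^ (k - 3) < n) ∨
        l ^ (k - 1) + C * l ^ (k - 2) < n ∨
        (19 * Nat.clog 2 k * l) ^ (k - 1) < n) →
      ∀ adj : Fin n → Fin n → Prop,
        (∀ u, ¬ adj u u) →
        (∀ u v, u ≠ v → (adj u v ↔ ¬ adj v u)) →
        ∀ c : Fin n → Fin n → ℕ,
          (∃ p : Fin (l + 1) → Fin n,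
              Function.Injective p ∧
              (∀ i : Fin l, adj (p i.castSucc) (p i.succ)) ∧
              (∀ i j : Fin l, c (p i.castSucc) (p i.succ) = c (p j.castSucc) (p j.succ))) ∨
          (∃ p : Fin (k + 1) → Fin n,
              Function.Injective p ∧
              (∀ i : Fin k, adj (p i.castSucc) (p i.succ)) ∧
              Function.Injective (fun i : Fin k => c (p i.castSucc) (p i.succ))) := by
  intro l k n C hl hk hC hn adj hirr hT c
  subst hC
  rcases hn with ⟨h3, hCl, hn⟩ | hn | hn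
  · exact Pool.Agent.Y389.RT.sharp2_core h3 hCl hn adj hirr hT c
  · exact Pool.Agent.Y389.RT.sharp_core hl hk hn adj hirr hT c
  · exact Pool.Agent.Y389.RT.main hl hk hn adj hirr hT c

end Pool.Agent.Results.MP_fed786_co.SharpThreshold
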